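import Pool.Agent.K6.H10.AV.Opn

/-!
# MP_2fc7fa_gt, Q1: forms all convex combinations of whose `SU(2)`-translates are symplectic

Let `S` be the space of symplectic forms on `CP²` in the class `a` of the Fubini-Study form, with
the smooth topology, and let `SU(2)` act on `CP²` by its action on `(z₁, z₂)` (`rot`).

* The set of all forms in `S` for which every convex combination of the pull-backs by elements of
  `SU(2)` is symplectic (`ConvNondeg`) is contractible.  The same holds inside every convex set `C`
  of two-forms which contains all `SU(2)`-invariant forms in the class, for example the set of the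
  `SU(2)`-invariant forms; so the `SU(2)`-invariant forms in `S` are a contractible space, too.
* It is open in `S`.
* It contains all forms which tame some `SU(2)`-invariant almost complex structure, of any kind:
  already `Ω (v, A v) > 0` for some `SU(2)`-invariant field `A` of maps of the tangent spaces is
  enough.

Differential forms on `CP²` are treated as forms on `ℂ³ \ {0}` which are invariant under the
multiplications by nonzero complex numbers and vanish on the directions of the orbits
(`IsForm`, `IsOne`, `Forms` in `Pool.Agent.K6.H10.SY.Defs`).
-/

set_option autoImplicit false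

noncomputable section

namespace Pool.Agent.Results.MP_2fc7fa_gt.ConvexOrbits

open Pool.Agent.K6.H10.SY
open Pool.Agent.K6.H10.SU
open Pool.Agent.K6.H10.AV

/-- The symplectic forms in the class all convex combinations of whose `SU(2)`-translates are
symplectic are an open contractible set, which contains the `SU(2)`-invariant forms and all forms
which tame an `SU(2)`-invariant field. -/
theorem result (C : Set (V → Bil)) (hC : Convex ℝ C)
    (h : ∀ Ω, IsForm Ω → InClass Ω → SUInv Ω → Ω ∈ C) :
    ContractibleSpace {Ω : Forms | Ω ∈ S ∧ Ω.val ∈ C ∧ ConvNondeg Ω.val} ∧
      IsOpen {Ω : Forms | ConvNondeg Ω.val} ∧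
      (∀ Ω ∈ S, SUInv Ω.val → ConvNondeg Ω.val) ∧
      (∀ (Ω : Forms) (A : V → V → V), SUField A → Tames Ω.val A → ConvNondeg Ω.val) ∧
      ContractibleSpace {Ω : Forms | Ω ∈ S ∧ SUInv Ω.val} :=
  ⟨contractible_conv hC h, isOpen_conv, fun _ h1 h2 => SUInv.convNondeg h2 h1.1,
    fun _ _ h1 h2 => convNondeg_of_tames h1 h2, contractible_SUInv⟩

end Pool.Agent.Results.MP_2fc7fa_gt.ConvexOrbits
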