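import Pool.Agent.K6.H10.MG.Exa

/-!
# MP_2fc7fa_gt, Q1: forms all convex combinations of whose translates are symplectic, for compact
groups with mirrors

Let `S` be the space of symplectic forms on `CP²` in the class `a` of the Fubini-Study form, with
the smooth topology, and let `X` be a compact group which acts on `CP²` by projective unitary maps
such that every point lies on a mirror, that is a line which is fixed pointwise by an element of
`X` acting as a reflection (`HasMirrors`).  This is so if `X` contains the half turns about all real
axes (for example for `SO(3)`), or the reflections of `ℂ³` which fix the first basis vector (for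
example for `U(2)`).

* The set of all forms in `S` for which every convex combination of the pull-backs by elements of
  `X` is symplectic (`ConvNondeg`) is contractible and open in `S`.  The same holds inside every
  convex set `C` of two-forms which contains all `X`-invariant forms in the class.
* It contains all `X`-invariant forms in `S`; these tame the standard complex structure, and they
  are a contractible space, too.

Differential forms on `CP²` are treated as forms on `ℂ³ \ {0}` which are invariant under the
multiplications by nonzero complex numbers and vanish on the directions of the orbits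
(`IsForm`, `IsOne`, `Forms` in `Pool.Agent.K6.H10.SY.Defs`).
-/

set_option autoImplicit false

noncomputable section

namespace Pool.Agent.Results.MP_2fc7fa_gt.MirrorGroups

open Pool.Agent.K6.H10.SY
open Pool.Agent.K6.H10.MG

/-- For a compact group of isometries with mirrors through all points the symplectic forms in the
class all convex combinations of whose translates are symplectic are an open contractible set. -/
theorem result {X : Type} [Group X] [TopologicalSpace X] [IsTopologicalGroup X] [CompactSpace X]
    [SecondCountableTopology X] (ρ : X → V →L[ℝ] V) (hρ : UnitaryAction ρ)
    (hR : HasMirrors ρ ∨ HasHalfTurns ρ ∨ HasPlaneReflections ρ) (C : Set (V → Bil))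
    (hC : Convex ℝ C) (h : ∀ Ω, IsForm Ω → InClass Ω → Inv ρ Ω → Ω ∈ C) :
    ContractibleSpace {Ω : Forms | Ω ∈ S ∧ Ω.val ∈ C ∧ ConvNondeg ρ Ω.val} ∧
      IsOpen {Ω : Forms | ConvNondeg ρ Ω.val} ∧
      (∀ Ω ∈ S, Inv ρ Ω.val → ConvNondeg ρ Ω.val) ∧
      (∀ Ω ∈ S, Inv ρ Ω.val → ∀ z : V, z ≠ 0 → ∀ v, (¬ ∃ c : ℂ, v = c • z) →
        0 < Ω.val z v (Complex.I • v)) ∧
      ContractibleSpace {Ω : Forms | Ω ∈ S ∧ Inv ρ Ω.val} :=
  final' hρ hR hC h

end Pool.Agent.Results.MP_2fc7fa_gt.MirrorGroups
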