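import Pool.Agent.K6.H10.SY.Stmt

/-!
# MP_2fc7fa_gt, Q1: the symplectic forms which are positive on a holomorphic pencil

Let `S` be the space of symplectic forms on `CP²` in the class `a` of the Fubini-Study form, with
the smooth topology.  Let `𝒟` be a nonempty family of sets of complex directions, such that each
`D ∈ 𝒟` contains all directions which are tangent to the fibres of a pencil `s₀ : s₁` of curves of
some degree `d > 0`, that is, `s₀ ds₁ (v) = s₁ ds₀ (v)`.  Then the space of all forms in `S` which
are positive on at least one `D ∈ 𝒟` is contractible.

Examples: the forms in `S` which are positive on some pencil of any degree; the forms such that all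
complex lines through some point are symplectic; the forms such that all complex lines which meet a
given nonempty set `Z` of points are symplectic.  Q1 is the question about `Z = ∅`.

The same holds in a convex set `C` of forms which contains the Kähler forms
`dd^c log (|s₀|² + |s₁|² + ε |z|^{2d}) / d` of the pencils for all small `ε > 0`, for instance in the
set of all forms which are invariant under a group of unitary maps which preserves
`|s₀|² + |s₁|²`.

Differential forms on `CP²` are treated as forms on `ℂ³ \ {0}` which are invariant under the
multiplications by nonzero complex numbers and vanish on the directions of the orbits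
(`IsForm`, `IsOne`, `Forms` in `Pool.Agent.K6.H10.SY.Defs`; the other definitions are in
`Pool.Agent.K6.H10.SY.Stmt`).
-/

set_option autoImplicit false

noncomputable section

namespace Pool.Agent.Results.MP_2fc7fa_gt.PencilForms

open Pool.Agent.K6.H10.SY

/-- The symplectic forms in the class which are positive on a set of directions of a family, each
member of which contains the directions of a pencil, are contractible. -/
theorem result (C : Set (V → Bil)) (hC : Convex ℝ C) (𝒟 : Set (Set (V × V)))
    (hne : 𝒟.Nonempty)
    (h : ∀ D ∈ 𝒟, ∃ (d : ℕ) (P : Fin 2 → MvPolynomial (Fin 3) ℂ), 0 < d ∧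
      (∀ j, (P j).IsHomogeneous d) ∧ (∃ ε₁ : ℝ, 0 < ε₁ ∧ ∀ ε, 0 < ε → ε < ε₁ →
        tau d (fn P) ε ∈ C) ∧ pencilDirections P ⊆ D) :
    ContractibleSpace {Ω : Forms | Ω ∈ S ∧ Ω.val ∈ C ∧ ∃ D ∈ 𝒟, PositiveOn D Ω} :=
  family_contractible hC 𝒟 hne h

end Pool.Agent.Results.MP_2fc7fa_gt.PencilForms
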