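import Pool.Agent.K6.H10.SY.Stmt

/-!
# MP_2fc7fa_gt, Q1: the symplectic forms which see a Kähler form

Let `S` be the space of symplectic forms on `CP²` in the class `a` of the Fubini-Study form, with
the smooth topology.  The set of all forms in `S` which can be joined to a Kähler form in `a` (for
the standard complex structure) by a line segment in `S` is open in `S` and contractible.  The same
holds in every convex set `C` of forms which contains a Kähler form in `a`, for instance in the set
of all forms which are invariant under a given group of isometries.

Differential forms on `CP²` are treated as forms on `ℂ³ \ {0}` which are invariant under the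
multiplications by nonzero complex numbers and vanish on the directions of the orbits
(`IsForm`, `IsOne`, `Forms` in `Pool.Agent.K6.H10.SY.Defs`; the other definitions are in
`Pool.Agent.K6.H10.SY.Stmt`).
-/

set_option autoImplicit false

noncomputable section

namespace Pool.Agent.Results.MP_2fc7fa_gt.VisibleForms

open Pool.Agent.K6.H10.SY

/-- The forms which are joined to a Kähler form by a line segment of symplectic forms are an open
contractible set. -/
theorem result (C : Set (V → Bil)) (hC : Convex ℝ C) (h : ∃ τ : Forms, IsKaehler τ ∧ τ.val ∈ C) :
    ContractibleSpace (Visible C) ∧
      ∃ O : Set Forms, IsOpen O ∧ Visible C = {Ω | Ω ∈ S ∧ Ω.val ∈ C} ∩ O :=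
  ⟨visible_contractible hC h, visible_open C⟩

end Pool.Agent.Results.MP_2fc7fa_gt.VisibleForms
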